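import Pool.Agent.R401.Tr11

/-!
# Geometric origin from congruences with a motive modulo the norms of the places

Let `f` be a Bianchi newform of weight `k + 2` over `K` and `ρ = ρ_{f,p}`; put `w = k + 1`. Let
`W = H^i(X ⊗ K̄, ℚ̄_p)(j)` be the cohomology of a smooth projective variety (or a representation
which arises from étale cohomology), of weight `i - 2 j = w`. The traces of the Frobenius elements
on `ρ` and `W` are algebraic. Suppose only that for most places `v` the traces of `f` and of `W` are
congruent modulo `N(v) ^ (w / 2)`: the number `(a_v(f) - a_v(W)) ^ 2 / N(v) ^ w` is integral, up to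
a fixed denominator, for the places `v` in a set of upper density larger than `1 - 1 / (4 + m ^ 2)`,
where `m` is the dimension of `W`. Then `ρ` arises from étale cohomology: either `ρ` is a subquotient
of `W`, or `w` is even and the twist of `ρ` by the power `w / 2` of the cyclotomic character has
finite image (and such a representation is a Tate twist of a constituent of the zeroth cohomology of
a variety of dimension zero).

For example a Bianchi newform `f` of weight two and an elliptic curve `A` over `K` have isomorphic
`p`-adic representations as soon as `N(v)` divides `(a_v(f) - a_v(A)) ^ 2` for the places `v` in a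
set of upper density larger than `7 / 8`; equality of the traces is not needed.

The size condition is a mean value over the places of norm at most `x`; it holds for cuspidal
automorphic representations by the theory of Rankin and Selberg, and for cohomology groups by
Deligne's theorem. No condition on the ramification and none on the restrictions to the places above
`p` is used. The theorem is proved for irreducible representations of any dimension over any number
field, and `W` may be an arbitrary continuous representation, not necessarily semisimple.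

Proof. Chebotarev's theorem for closed sets, Burnside's counting argument and the trace form show
that the difference of the traces of the twists `ρ(w / 2)` and `W(w / 2)` is constant on the cosets
of an open normal subgroup `U`. Let `I` be the ideal of the group ring which is generated by the
`x - 1` for `x` in `U`; on it the two traces agree. If `ρ` is not a subquotient of `W` then there are
elements of the group ring which act as `0` on `W` and not as `0` on `ρ`; hence the trace of `ρ`
vanishes on their products with the elements of `I`, and `I` acts as `0` on `ρ(w / 2)`.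
-/

set_option autoImplicit false

namespace Pool.Agent.Results.MP_2e0e07_nt.CongruentMotive

open NumberField IsDedekindDomain Filter Matrix

/-- the absolute Galois group of the field `K`, with the Krull topology -/
abbrev AbsGal (K : Type) [Field K] : Type := Gal(AlgebraicClosure K/K)

/-- `g` is an (arithmetic) Frobenius element at a maximal ideal `Q` of the ring of all algebraic
integers which lies above the finite place `v` of `K`. -/
def IsFrobenius {K : Type} [Field K] [NumberField K] (v : HeightOneSpectrum (𝓞 K))
    (g : AbsGal K) : Prop :=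
  ∃ Q : Ideal (𝓞 (AlgebraicClosure K)), Q.IsMaximal ∧
    Q.comap (algebraMap (𝓞 K) (𝓞 (AlgebraicClosure K))) = v.asIdeal ∧
    ∀ x : 𝓞 (AlgebraicClosure K), g • x - x ^ Ideal.absNorm v.asIdeal ∈ Q

/-- the `p`-adic cyclotomic character of the absolute Galois group of `K` -/
noncomputable def chi (K : Type) [Field K] (p : ℕ) [Fact p.Prime] (g : AbsGal K) : ℚ_[p] :=
  ((cyclotomicCharacter (AlgebraicClosure K) p
    (MulSemiringAction.toRingAut (AbsGal K) (AlgebraicClosure K) g) : ℤ_[p]ˣ) : ℤ_[p])

section
variable {K F : Type} [Field K] [Field F] {n m : ℕ}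

/-- the matrix of `g` -/
noncomputable def mat (ρ : AbsGal K →* GL (Fin n) F) (g : AbsGal K) : Matrix (Fin n) (Fin n) F :=
  (ρ g : GL (Fin n) F)

/-- `ρ` is irreducible. -/
def Irreducible (ρ : AbsGal K →* GL (Fin n) F) : Prop :=
  0 < n ∧ ∀ X : Submodule F (Fin n → F), (∀ g, ∀ x ∈ X, mat ρ g *ᵥ x ∈ X) → X = ⊥ ∨ X = ⊤

/-- `ρ` is isomorphic to a subquotient of `W`: there is a stable subspace `Y` of the space of `W`
with an equivariant linear map from `Y` onto the space of `ρ` (extended in some way to a linear map
`f` on the space of `W`). -/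
def IsSubquotient (ρ : AbsGal K →* GL (Fin n) F) (W : AbsGal K →* GL (Fin m) F) : Prop :=
  ∃ (Y : Submodule F (Fin m → F)) (f : (Fin m → F) →ₗ[F] (Fin n → F)),
    (∀ g, ∀ y ∈ Y, mat W g *ᵥ y ∈ Y) ∧ Y.map f = ⊤ ∧
    ∀ g, ∀ y ∈ Y, f (mat W g *ᵥ y) = mat ρ g *ᵥ f y

end

/-- **Congruent traces.** -/
theorem result {K : Type} [Field K] [NumberField K] (p : ℕ) [Fact p.Prime] {F : Type}
    [NormedField F] [NormedAlgebra ℚ_[p] F] {n m : ℕ}
    (ρ : AbsGal K →* GL (Fin n) F) (hρ : Continuous ρ) (hirr : Irreducible ρ)
    (W : AbsGal K →* GL (Fin m) F) (hW : Continuous W)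
    -- the field of coefficients, the weight, and the differences of the traces of the geometric
    -- Frobenius elements outside of a finite set `B` of places
    {E : Type} [Field E] [NumberField E] (τ : E →+* F) (w : ℤ)
    (B : Set (HeightOneSpectrum (𝓞 K))) (hB : B.Finite) (a : HeightOneSpectrum (𝓞 K) → E)
    (htr : ∀ v, v ∉ B → (p : 𝓞 K) ∉ v.asIdeal → ∀ g, IsFrobenius v g →
      (mat ρ g⁻¹).trace - (mat W g⁻¹).trace = τ (a v))
    -- the mean value of their size
    (C : ℝ) (hC : ∀ᶠ x : ℕ in atTop, ∑ᶠ v ∈ {v : HeightOneSpectrum (𝓞 K) |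
      Ideal.absNorm v.asIdeal ≤ x ∧ v ∉ B}, ∑ σ : E →+* ℂ, ‖σ (a v)‖ ^ 2 /
        (Ideal.absNorm v.asIdeal : ℝ) ^ w ≤ C * Nat.primeCounting x)
    -- most differences are divisible, up to a bounded denominator
    (d : ℕ) (hd : 0 < d) (θ : ℝ) (hθ : θ * ((n : ℝ) ^ 2 + (m : ℝ) ^ 2) < 1)
    (hdiv : ∃ᶠ x : ℕ in atTop, ({v : HeightOneSpectrum (𝓞 K) | Ideal.absNorm v.asIdeal ≤ x ∧
      ¬ ∃ c : 𝓞 E, (d : E) * a v ^ 2 = (Ideal.absNorm v.asIdeal : E) ^ w * c}.ncard : ℝ) ≤
        θ * Nat.primeCounting x) :
    IsSubquotient ρ W ∨
      ∃ u : ℤ, w = 2 * u ∧ ∃ U : Subgroup (AbsGal K), U.Normal ∧ IsOpen (U : Set (AbsGal K)) ∧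
        ∀ g ∈ U, (algebraMap ℚ_[p] F (chi K p g)) ^ u • mat ρ g = 1 := by
  exact Pool.Agent.R401.Tr11.compare ρ hρ W hW hirr B hB a w τ htr C hC θ hθ hd (by
      refine (hdiv.and_eventually (Nat.tendsto_primeCounting.eventually_gt_atTop 0)).mono ?_
      rintro N ⟨h1, h3⟩
      have h4 : (0 : ℝ) < (Nat.primeCounting N : ℝ) := by exact_mod_cast h3
      unfold Pool.Agent.W401.Cheb.dens
      rw [div_le_iff₀ h4]
      exact h1)

end Pool.Agent.Results.MP_2e0e07_nt.CongruentMotive
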