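import Pool.Agent.R905.GO.Main

/-!
# Galois representations in the cohomology of smooth affine cubic hypersurfaces

`K` is an imaginary quadratic field, `G` its absolute Galois group, `Λ` an algebraic closure of `ℚ_p`,
`χ` the cyclotomic character, and `T.H X n` the `p`-adic étale cohomology with compact supports
`H^n_c(X)` of a `K`-scheme `X` over an algebraic closure of `K`, with the action of `G`. The
representation `ρ` is `ρ_{f,p}` of the problem (or any irreducible representation of `G`).
-/

set_option autoImplicit false

open AlgebraicGeometry Pool.Agent.R904.CU Pool.Agent.R904.EL Pool.Agent.R905.GO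

namespace Pool.Agent.Results.MP_2e0e07_nt.CubicsAndArrangements

/-- Let `S` be a class of schemes such as the smooth projective `K`-schemes. For an irreducible
representation `ρ` of `G` (more generally, an irreducible space with operators indexed by `G`) the
following are equivalent: (1) `ρ` arises from étale cohomology, that is, a
twist of `ρ` is a subquotient of the cohomology of some scheme in `S`; (2) a twist of `ρ` is a
subquotient of the cohomology with compact supports of some separated scheme of finite type over `K`;
(3) a twist of `ρ` is a subquotient of the cohomology with compact supports of some smooth hypersurface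
of degree at most three in an affine space over `K`; (4) the same for the complement `a ≠ 0` of a
hypersurface in an affine space over `K`, for some product `a` of polynomials of the forms
`xᵢ xⱼ - xₖ`, `xᵢ + xⱼ - xₖ` and `xᵢ - c` with `c` in `K`. -/
theorem result (K Λ G : Type) [Field K] [Field Λ] [Group G] (χ : G →* Λˣ)
    (T : Cohomology K Λ G) (hT : T.CompactSupports χ) (S : SchProp K)
    (hS : Pool.Agent.R905.WM.Models S) (W : Type) [AddCommGroup W] [Module Λ W]
    (ρ : G → Module.End Λ W) (hρ : Simple ρ) :
    [∃ X f, SepFinType K X f ∧ S X f ∧ T.OccursIn χ ρ X f,
     ∃ X f, SepFinType K X f ∧ T.OccursIn χ ρ X f,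
     ∃ (ι : Type) (_ : Fintype ι) (F : MvPolynomial ι K), IsSmoothCubic F ∧
       T.OccursIn χ ρ _ (hyp F),
     ∃ (ι : Type) (_ : Fintype ι) (a : MvPolynomial ι K), a ∈ elemProds (Set.univ : Set K) ι ∧
       T.OccursIn χ ρ _ (complHom a)].TFAE :=
  Cohomology.models hT hρ hS

end Pool.Agent.Results.MP_2e0e07_nt.CubicsAndArrangements
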