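import Pool.Agent.R629.NF.Conc9

/-!
# MP_2e0e07_nt: geometric origin is visible on the edge of absolute convergence

`K` is an imaginary quadratic field (or any number field which is Galois over `ℚ`), `Ω` an algebraic
closure of `ℚ` which contains `K` and `GalOf K Ω` the absolute Galois group of `K`.  `(R_i)` is a
countable family of continuous irreducible representations of it (the `ρ_{f,p}` of all Bianchi newforms
`f` of a given weight) and `(H_j)` a countable family of continuous irreducible representations, which
is stable under conjugation by the absolute Galois group of `ℚ` (all irreducible subquotients of the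
Tate twists of the étale cohomology of the smooth projective varieties over `K` which are pure of the
given weight).  All the Frobenius eigenvalues have absolute value `q_v^w`.  Then `R_i` is of geometric
origin, that is isomorphic to one of the `H_j`, if and only if almost all values `l_i(t)` of `L(R_i, s)`
on the line `Re s = 1 + w` are algebraic over a field generated by countably many constants, the values
of the `L(H_j, s)` at the same point, the ordinate `t` and the `p^{-it}`.  If `R_i` is not of geometric
origin, almost all values are transcendental over every such field, and the values of all the `R_i`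
which are not of geometric origin are algebraically independent over it if these are pairwise not
conjugate.  Chebotarev's theorem is not assumed: it is proved in the starting files and extended to
`GalOf K Ω` in the files imported here.
-/

set_option autoImplicit false

namespace Pool.Agent.Results.MP_2e0e07_nt.GeometricOriginCriterion

open NumberField IsDedekindDomain MeasureTheory
open Pool.Agent.R629.NF
open Pool.Agent.R629.SP

/-- **Criterion for geometric origin.** -/
theorem result {K Ω : Type} [Field K] [NumberField K] [IsGalois ℚ K] [Field Ω] [CharZero Ω]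
    [IsAlgClosure ℚ Ω] [Algebra K Ω] {F : HeightOneSpectrum (𝓞 K) → GalOf K Ω}
    (hF : ∀ v, IsFrobAt Ω v (F v : Gal(Ω/ℚ)))
    {k : Type} [Field k] [CharZero k] [TopologicalSpace k] [IsTopologicalRing k] [T1Space k]
    (ι : k →+* ℂ)
    {I : Type} [Countable I] {n : I → ℕ} {R : ∀ i, GalOf K Ω →* GL (Fin (n i)) k}
    (hR : ∀ i, IsCont (R i)) (hirr : ∀ i, (rep (R i)).IsIrreducible)
    {J : Type} [Countable J] {m : J → ℕ} {H : ∀ j, GalOf K Ω →* GL (Fin (m j)) k}
    (hH : ∀ j, IsCont (H j)) (hHirr : ∀ j, (rep (H j)).IsIrreducible)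
    (hstab : ∀ j (s : Gal(Ω/ℚ)), IsIn H ((H j).comp (conjBy K s)))
    {SI : I → Finset ℕ} (hSI : ∀ i, Unram K (SI i)) (hRS : ∀ i, IsUnr (SI i) (R i))
    {SJ : J → Finset ℕ} (hSJ : ∀ j, Unram K (SJ j)) (hHS : ∀ j, IsUnr (SJ j) (H j)) {w : ℝ}
    (hPI : ∀ i, IsSys (SI i) (n i) w (frobPoly ι F (R i)))
    (hPJ : ∀ j, IsSys (SJ j) (m j) w (frobPoly ι F (H j)))
    {l : I → ℝ → ℂ} (hl : ∀ i, IsEdgeOf (SI i) (n i) (frobPoly ι F (R i)) w (l i))
    {lH : J → ℝ → ℂ} (hlH : ∀ j, IsEdgeOf (SJ j) (m j) (frobPoly ι F (H j)) w (lH j)) :
    (∀ i, (IsIn H (R i) ↔ DependentOn (l i) lH) ∧ (¬ IsIn H (R i) → IndependentOf (l i) lH)) ∧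
      ((∀ i i', i ≠ i' → ¬ IsConjugate (conjBy (Ω := Ω) K) (R i) (R i')) →
        ∀ k' : Subfield ℂ, (k' : Set ℂ).Countable → ∀ᵐ t : ℝ, AlgebraicIndependent
          (IntermediateField.adjoin k' (valSet (fun j => lH j t) t))
          fun i : {i // ¬ IsIn H (R i)} => l i.1 t) :=
  ⟨fun i => main_conc1 ι hF (hR i) (hirr i) hH hHirr hstab (hSI i) (hRS i) hSJ hHS (hPI i) hPJ
    (hl i) hlH, fun hnc k' hk' => main_conc2 ι hF hR hirr hH hHirr hstab hSI hRS hSJ hHS hPI hPJ hl
    hlH hnc k' hk'⟩

end Pool.Agent.Results.MP_2e0e07_nt.GeometricOriginCriterion
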